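import Pool.Agent.helper4.EC.Spec

set_option autoImplicit false

namespace Pool.Agent.helper4.EC

open Finset

universe u

/-- Two slides with different removed vertices: the removed vertex of one is not adjacent to the new vertex of the other. -/
theorem TB_na {V : Type u} [DecidableEq V] (G : SimpleGraph V) {X : Finset V} {x x' y' : V}
    (hx : x ∈ X) (s2 : Sl G X x' y') (hne : x ≠ x') : ¬ G.Adj x y' := by
  obtain ⟨-, -, -, hi⟩ := s2
  refine hi.1.1 x ?_ y' (mem_insert_self _ _)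
  exact mem_insert_of_mem (mem_erase.2 ⟨hne, hx⟩)

/-- The case where the first slide has a triangle. -/
theorem TB_half {V : Type u} [DecidableEq V] (h2 : C4_stmt.{u}) (h3 : LN_stmt.{u}) (h4 : TR_stmt.{u})
    (h5 : CF_stmt.{u}) (G : SimpleGraph V) (hC : Chordal G) (hCI : Chordal (iGraph G)) (hDF : DF G)
    {X : Finset V} {x y x' y' : V} (hX : IsISet G X) (s1 : Sl G X x y) (s2 : Sl G X x' y')
    (hne : x ≠ x') (hyy : G.Adj y y') (T : {S : Finset V // IsISet G S})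
    (hTX : (iGraph G).Adj T ⟨X, hX⟩)
    (hTY : (iGraph G).Adj T ⟨insert y (X.erase x), s1.2.2.2⟩) :
    ∃ v, G.Adj x v ∧ G.Adj x' v ∧ ¬ G.Adj y v ∧ ¬ G.Adj y' v := by
  have hxy' : ¬ G.Adj x y' := TB_na G s1.1 s2 hne
  have hx'y : ¬ G.Adj x' y := TB_na G s2.1 s1 hne.symm
  obtain ⟨z, hzy, sz, -⟩ := h4 V G ⟨X, hX⟩ ⟨insert y (X.erase x), s1.2.2.2⟩ T x y s1 rfl hTX hTY
  have hyz : G.Adj y z := h3 V G X x y z s1 sz hzy.symm
  have hxz : G.Adj x z := sz.2.2.1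
  have hxy : G.Adj x y := s1.2.2.1
  have hx'y' : G.Adj x' y' := s2.2.2.1
  have hxney' : x ≠ y' := fun h => s2.2.1 (h ▸ s1.1)
  have hynex' : y ≠ x' := fun h => s1.2.1 (h ▸ s2.1)
  have hzy' : ¬ G.Adj z y' := fun h => hxy' (hDF y z x y' hyz hxy.symm hxz.symm hyy h hxney')
  obtain ⟨v, hxv, hx'v, hzv, hy'v⟩ := h5 V G hCI X x z x' y' hX sz s2 hne hzy'
  refine ⟨v, hxv, hx'v, fun hyv => ?_, hy'v⟩
  have hvne : v ≠ y' := fun h => hxy' (h ▸ hxv)
  rcases (h2 V G hC).1 v y y' x' hyv.symm hyy hx'y'.symm hx'v hvne hynex' with h | h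
  · exact hy'v h.symm
  · exact hx'y h.symm

theorem TB (h1 : SA_stmt.{u}) (h2 : C4_stmt.{u}) (h3 : LN_stmt.{u}) (h4 : TR_stmt.{u}) (h5 : CF_stmt.{u}) :
    TB_stmt.{u} := by
  intro V _ G hC hCI hDF hSB X x y x' y' hX s1 s2 hne
  by_cases hyy : G.Adj y y'
  · have a1 : (iGraph G).Adj ⟨X, hX⟩ ⟨insert y (X.erase x), s1.2.2.2⟩ :=
      (h1 V G ⟨X, hX⟩ ⟨insert y (X.erase x), s1.2.2.2⟩).2 ⟨x, y, s1, rfl⟩
    have a2 : (iGraph G).Adj ⟨X, hX⟩ ⟨insert y' (X.erase x'), s2.2.2.2⟩ :=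
      (h1 V G ⟨X, hX⟩ ⟨insert y' (X.erase x'), s2.2.2.2⟩).2 ⟨x', y', s2, rfl⟩
    have hd : (⟨insert y (X.erase x), s1.2.2.2⟩ : {S : Finset V // IsISet G S}) ≠
        ⟨insert y' (X.erase x'), s2.2.2.2⟩ := by
      intro h
      have h' : insert y (X.erase x) = insert y' (X.erase x') := congrArg Subtype.val h
      have m1 : x' ∈ insert y (X.erase x) := mem_insert_of_mem (mem_erase.2 ⟨hne.symm, s2.1⟩)
      rw [h'] at m1
      rcases mem_insert.1 m1 with m | m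
      · exact s2.2.1 (m ▸ s2.1)
      · exact (mem_erase.1 m).1 rfl
    rcases hSB _ _ _ a1 a2 hd with ⟨T, t1, t2⟩ | ⟨T, t1, t2⟩
    · exact TB_half h2 h3 h4 h5 G hC hCI hDF hX s1 s2 hne hyy T t1 t2
    · obtain ⟨v, v1, v2, v3, v4⟩ :=
        TB_half h2 h3 h4 h5 G hC hCI hDF hX s2 s1 hne.symm hyy.symm T t1 t2
      exact ⟨v, v2, v1, v4, v3⟩
  · exact h5 V G hCI X x y x' y' hX s1 s2 hne hyy

end Pool.Agent.helper4.EC
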